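import Mathlib

/-! A right distributive (in particular a right uniserial) centrally essential endomorphism ring
of an abelian group is commutative. -/

namespace Pool.Agent.Results.MP_10193a_al.Comm

/-- Centrally essential rings. -/
def CentrallyEssential (R : Type*) [Ring R] : Prop :=
  ∀ a : R, a ≠ 0 → ∃ x ∈ Subring.center R, ∃ y ∈ Subring.center R, x ≠ 0 ∧ y ≠ 0 ∧ a * x = y

/-- The lattice of right ideals is distributive. -/
def RightDistributive (R : Type*) [Ring R] : Prop :=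
  ∀ I J K : Submodule Rᵐᵒᵖ R, I ⊓ (J ⊔ K) = (I ⊓ J) ⊔ (I ⊓ K)

/-- The right ideals form a chain. -/
def RightUniserial (R : Type*) [Ring R] : Prop :=
  ∀ I J : Submodule Rᵐᵒᵖ R, I ≤ J ∨ J ≤ I

theorem nil_central {R : Type*} [Ring R] (h : CentrallyEssential R) {a b : R}
    (hc : a * b - b * a ≠ 0) : ∃ z ∈ Subring.center R, (a * b - b * a) * z ∈ Subring.center R ∧
      (a * b - b * a) * z ≠ 0 ∧ (a * b - b * a) * z * ((a * b - b * a) * z) = 0 := by
  set c := a * b - b * a with hcdef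
  have key : ∀ x ∈ Subring.center R, a * x ∈ Subring.center R → c * x = 0 := fun x hx hax => by
    rw [hcdef, sub_mul, mul_assoc, Subring.mem_center_iff.1 hx b, ← mul_assoc, mul_assoc b,
      Subring.mem_center_iff.1 hax b, sub_self]
  have fin : ∀ z ∈ Subring.center R, c * z ∈ Subring.center R → a * (c * z) ∈ Subring.center R →
      c * z * (c * z) = 0 := fun z hz hcz haz => by
    rw [mul_assoc, Subring.mem_center_iff.1 hcz z, ← mul_assoc, key _ hcz haz, zero_mul]
  obtain ⟨u, hu, w, hw, -, hw0, huw⟩ := h c hc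
  by_cases h0 : a * w = 0
  · exact ⟨u, hu, huw ▸ hw, huw ▸ hw0, fin u hu (huw ▸ hw) (by rw [huw, h0]; exact zero_mem _)⟩
  · obtain ⟨x, hx, y, hy, -, hy0, hxy⟩ := h _ h0
    have h1 : c * (u * x) ∈ Subring.center R := by rw [← mul_assoc, huw]; exact mul_mem hw hx
    have h2 : a * (c * (u * x)) = y := by rw [← mul_assoc c, huw, ← mul_assoc, hxy]
    exact ⟨u * x, mul_mem hu hx, h1, fun h => hy0 (by rw [← h2, h, mul_zero]),
      fin _ (mul_mem hu hx) h1 (h2 ▸ hy)⟩

theorem distr {R : Type*} [Ring R] (h : RightDistributive R) (x y : R) :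
    ∃ r s s' : R, y * r = x * s ∧ x * (1 - r) = y * s' := by
  have m : ∀ u v : R, u ∈ Submodule.span Rᵐᵒᵖ {v} ↔ ∃ r, v * r = u := fun u v => by
    rw [Submodule.mem_span_singleton]
    exact ⟨fun ⟨r, hr⟩ => ⟨r.unop, hr⟩, fun ⟨r, hr⟩ => ⟨MulOpposite.op r, hr⟩⟩
  have hx : x ∈ Submodule.span Rᵐᵒᵖ {x} ⊓
      (Submodule.span Rᵐᵒᵖ {y} ⊔ Submodule.span Rᵐᵒᵖ {x - y}) :=
    ⟨Submodule.mem_span_singleton_self x, Submodule.mem_sup.2 ⟨y,
      Submodule.mem_span_singleton_self y, x - y, Submodule.mem_span_singleton_self _, by abel⟩⟩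
  rw [h] at hx
  obtain ⟨s, ⟨-, hs⟩, t, ⟨ht, ht'⟩, hst⟩ := Submodule.mem_sup.1 hx
  obtain ⟨s', hs'⟩ := (m _ _).1 hs
  obtain ⟨q, hq⟩ := (m _ _).1 ht
  obtain ⟨r, hr⟩ := (m _ _).1 ht'
  refine ⟨r, r - q, s' - r, ?_, ?_⟩
  · rw [mul_sub, hq, ← hr, sub_mul]; abel
  · rw [mul_sub, mul_sub, hs', mul_one, eq_sub_of_add_eq hst, ← hr, sub_mul]; abel

variable {A : Type*} [AddCommGroup A]

theorem bez {p : ℕ} (hp : p.Prime) {s : A} (hs : p • s = 0) {j : ℤ} (hj : ¬ (p : ℤ) ∣ j)
    {H : AddSubgroup A} (h : j • s ∈ H) : s ∈ H := by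
  obtain ⟨u, v, huv⟩ := (Nat.prime_iff_prime_int.1 hp).irreducible.coprime_iff_not_dvd.2 hj
  have : s = v • j • s := by
    conv_lhs => rw [← one_smul ℤ s, ← huv, add_smul, mul_smul, natCast_zsmul, hs, smul_zero,
      zero_add, mul_smul]
  rw [this]
  exact zsmul_mem h v

theorem exists_dual' {G : Type*} [AddCommGroup G] {p : ℕ} [Fact p.Prime] [Module (ZMod p) G]
    {y : G} (hy : y ≠ 0) : ∃ l : G →+ ZMod p, l y ≠ 0 := by
  by_contra h
  push Not at h
  exact hy ((Module.forall_dual_apply_eq_zero_iff (ZMod p) _).1 fun l => h l.toAddMonoidHom)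

theorem exists_dual {G : Type*} [AddCommGroup G] {p : ℕ} [Fact p.Prime] (hG : ∀ x : G, p • x = 0)
    {y : G} (hy : y ≠ 0) : ∃ l : G →+ ZMod p, l y ≠ 0 := by
  exact @exists_dual' G _ p _ (AddCommGroup.zmodModule hG) y hy

theorem socle (h : RightDistributive (AddMonoid.End A)) {p : ℕ} (hp : p.Prime)
    (hA : ¬ ∀ a : A, ∃ b, p • b = a) {t t' : A} (ht : p • t = 0) (ht0 : t ≠ 0) (ht' : p • t' = 0) :
    t' ∈ AddSubgroup.zmultiples t := by
  haveI := Fact.mk hp
  push Not at hA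
  obtain ⟨a, ha⟩ := hA
  let P : AddSubgroup A := (nsmulAddMonoidHom p : A →+ A).range
  have ha' : (a : A ⧸ P) ≠ 0 := fun h => by
    obtain ⟨b, hb⟩ := (QuotientAddGroup.eq_zero_iff a).1 h
    exact ha b hb
  obtain ⟨l, hl⟩ := exists_dual (p := p) (fun x : A ⧸ P => by
    obtain ⟨x, rfl⟩ := QuotientAddGroup.mk_surjective x
    rw [← QuotientAddGroup.mk_nsmul, QuotientAddGroup.eq_zero_iff]
    exact ⟨x, rfl⟩) ha'
  let L : A → ℤ := fun x => (l (x : A ⧸ P)).cast
  have hf : ∀ s : A, p • s = 0 → ∃ f : AddMonoid.End A, ∀ x, f x = L x • s := fun s hs => by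
    refine ⟨(ZMod.lift p ⟨zmultiplesHom A s, by simpa using hs⟩).comp
      (l.comp (QuotientAddGroup.mk' P)), fun x => ?_⟩
    have := ZMod.lift_coe p ⟨zmultiplesHom A s, by simpa using hs⟩ (L x)
    rw [ZMod.intCast_zmod_cast] at this
    exact this
  have hLa : ¬ (p : ℤ) ∣ L a := fun h => hl (by
    rw [← ZMod.intCast_zmod_eq_zero_iff_dvd, ZMod.intCast_zmod_cast] at h; exact h)
  obtain ⟨x, hx⟩ := hf t ht
  obtain ⟨y, hy⟩ := hf t' ht'
  obtain ⟨r, s, s', h1, h2⟩ := distr h x y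
  have h3 : y (r a) = x (s a) := DFunLike.congr_fun h1 a
  have h4 : x (a - r a) = y (s' a) := DFunLike.congr_fun h2 a
  by_cases hr : (p : ℤ) ∣ L (r a)
  · rw [map_sub, hx, hx, hy, ← sub_smul] at h4
    have h5 : t ∈ AddSubgroup.zmultiples t' :=
      bez hp ht (j := L a - L (r a)) (fun h => hLa (by simpa using dvd_add h hr)) ⟨_, h4.symm⟩
    obtain ⟨j, hj⟩ := h5
    refine bez hp ht' (j := j) ?_ ⟨1, by simpa using hj.symm⟩
    rintro ⟨k, rfl⟩
    apply ht0
    rw [← hj]
    show ((p : ℤ) * k) • t' = 0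
    rw [mul_comm, mul_smul, natCast_zsmul, ht', smul_zero]
  · rw [hx, hy] at h3
    exact bez hp ht' hr ⟨_, h3.symm⟩

theorem cyc {p : ℕ} (hs : ∀ t t' : A, p • t = 0 → t ≠ 0 → p • t' = 0 →
    t' ∈ AddSubgroup.zmultiples t) (k : ℕ) : ∀ t s : A, p ^ (k + 1) • t = 0 → p ^ k • t ≠ 0 →
      p ^ (k + 1) • s = 0 → s ∈ AddSubgroup.zmultiples t := by
  induction k with
  | zero => intro t s h1 h2 h3; exact hs t s (by simpa using h1) (by simpa using h2) (by simpa using h3)
  | succ k ih =>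
    intro t s h1 h2 h3
    obtain ⟨j, hj⟩ := hs (p ^ (k + 1) • t) (p ^ (k + 1) • s) (by rw [smul_smul, ← pow_succ', h1]) h2
      (by rw [smul_smul, ← pow_succ', h3])
    have hj' : j • p ^ (k + 1) • t = p ^ (k + 1) • s := hj
    obtain ⟨i, hi⟩ := ih (p • t) (s - j • t) (by rw [smul_smul, ← pow_succ, h1])
      (by rwa [smul_smul, ← pow_succ]) (by rw [smul_sub, smul_comm, hj', sub_self])
    have hi' : i • p • t = s - j • t := hi
    exact ⟨j + i * p, by
      show (j + i * p) • t = s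
      rw [add_smul, mul_smul, natCast_zsmul, hi']; abel⟩

theorem comm_kill {p : ℕ} (hs : ∀ t t' : A, p • t = 0 → t ≠ 0 → p • t' = 0 →
    t' ∈ AddSubgroup.zmultiples t) (a b : AddMonoid.End A) (k : ℕ) :
    ∀ t : A, p ^ k • t = 0 → (a * b - b * a) t = 0 := by
  induction k with
  | zero => intro t h; rw [pow_zero, one_smul] at h; rw [h, map_zero]
  | succ k ih =>
    intro t h
    by_cases h0 : p ^ k • t = 0
    · exact ih t h0
    · obtain ⟨i, hi⟩ := cyc hs k t (a t) h h0 (by rw [← map_nsmul, h, map_zero])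
      obtain ⟨j, hj⟩ := cyc hs k t (b t) h h0 (by rw [← map_nsmul, h, map_zero])
      have hi' : i • t = a t := hi
      have hj' : j • t = b t := hj
      show a (b t) - b (a t) = 0
      rw [← hi', ← hj', map_zsmul, map_zsmul, ← hi', ← hj', smul_comm, sub_self]

theorem ext1 {G D : Type*} [AddCommGroup G] [AddCommGroup D] [DivisibleBy D ℤ] (y : G) (w : D)
    (h : ∀ k : ℤ, k • y = 0 → k • w = 0) : ∃ F : G →+ D, F y = w := by
  let f := LinearMap.toSpanSingleton ℤ G y
  let g := LinearMap.toSpanSingleton ℤ D w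
  obtain ⟨F, hF⟩ := (Module.Baer.of_divisible D).extension_property
    ((LinearMap.ker f).liftQ f le_rfl)
    (LinearMap.ker_eq_bot.1 (Submodule.ker_liftQ_eq_bot _ _ _ le_rfl))
    ((LinearMap.ker f).liftQ g fun k hk => h k hk)
  refine ⟨F.toAddMonoidHom, ?_⟩
  have := LinearMap.congr_fun hF (Submodule.Quotient.mk 1)
  rw [LinearMap.comp_apply, Submodule.liftQ_apply, Submodule.liftQ_apply] at this
  simpa [f, g] using this

theorem endgame (D : AddSubgroup A) (hD : ∀ m : ℕ, m ≠ 0 → ∀ x ∈ D, ∃ y ∈ D, m • y = x)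
    (n : AddMonoid.End A) (hn : n ∈ Subring.center (AddMonoid.End A)) (hnn : n * n = 0)
    (hnD : ∀ a, n a ∈ D) : n = 0 := by
  classical
  have hD' : ∀ (m : ℤ), m ≠ 0 → ∀ x : D, ∃ y : D, m • y = x := fun m hm x => by
    obtain ⟨y, hy, h⟩ := hD m.natAbs (Int.natAbs_ne_zero.2 hm) x x.2
    rcases Int.natAbs_eq m with h' | h'
    · exact ⟨⟨y, hy⟩, Subtype.ext (by
        show m • y = x
        rw [h', natCast_zsmul, h])⟩
    · exact ⟨-⟨y, hy⟩, Subtype.ext (by
        show m • -y = x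
        rw [h', neg_smul, smul_neg, neg_neg, natCast_zsmul, h])⟩
  letI : DivisibleBy D ℤ :=
    { div := fun a m => if h : m ≠ 0 then (hD' m h a).choose else 0
      div_zero := fun a => by simp
      div_cancel := fun {m} a hm => by rw [dif_pos hm]; exact (hD' m hm a).choose_spec }
  have hc : ∀ (F : A →+ D) (a : A), (F (n a) : A) = n (F a) := fun F a =>
    DFunLike.congr_fun (Subring.mem_center_iff.1 hn (D.subtype.comp F)) a
  have h2 : ∀ a, n (n a) = 0 := fun a => DFunLike.congr_fun hnn a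
  have hz : ∀ x, n x ∈ AddSubgroup.zmultiples x := by
    intro x
    by_contra hx
    set y : A ⧸ AddSubgroup.zmultiples x := QuotientAddGroup.mk (n x) with hy
    have hy0 : y ≠ 0 := fun h => hx ((QuotientAddGroup.eq_zero_iff _).1 h)
    obtain ⟨w, hw0, hw⟩ : ∃ w : D, w ≠ 0 ∧ ∀ k : ℤ, k • y = 0 → k • w = 0 := by
      by_cases hfin : IsOfFinAddOrder (n x)
      · obtain ⟨e, he⟩ : addOrderOf y ∣ addOrderOf (n x) :=
          addOrderOf_map_dvd (QuotientAddGroup.mk' _) (n x)
        have hpos := hfin.addOrderOf_pos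
        have h1 : addOrderOf y ≠ 1 := fun h => hy0 (AddMonoid.addOrderOf_eq_one_iff.1 h)
        have he0 : e ≠ 0 := by rintro rfl; omega
        have hd0 : addOrderOf y ≠ 0 := fun h => by rw [h] at he; omega
        refine ⟨e • ⟨n x, hnD x⟩, fun h => ?_, fun k hk => Subtype.ext ?_⟩
        · exact nsmul_ne_zero_of_lt_addOrderOf he0 (by
            rw [he]; exact lt_mul_of_one_lt_left (by omega) (by omega)) (congrArg Subtype.val h)
        · obtain ⟨i, rfl⟩ := addOrderOf_dvd_iff_zsmul_eq_zero.2 hk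
          show ((addOrderOf y : ℤ) * i) • e • n x = 0
          rw [mul_comm, mul_smul, natCast_zsmul, smul_smul, ← he, addOrderOf_nsmul_eq_zero,
            smul_zero]
      · refine ⟨⟨n x, hnD x⟩, fun h => hx (by rw [show n x = 0 from congrArg Subtype.val h]; simp),
          fun k hk => Subtype.ext ?_⟩
        rw [hy, ← QuotientAddGroup.mk_zsmul, QuotientAddGroup.eq_zero_iff] at hk
        obtain ⟨j, hj⟩ := hk
        have hj' : j • x = k • n x := hj
        have h3 : j • n x = 0 := by rw [← map_zsmul, hj', map_zsmul, h2, smul_zero]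
        by_cases hj0 : j = 0
        · show k • n x = 0
          rw [← hj', hj0, zero_smul]
        · exact absurd (isOfFinAddOrder_iff_zsmul_eq_zero.2 ⟨j, hj0, h3⟩) hfin
    obtain ⟨F, hF⟩ := ext1 y w hw
    have h3 := hc (F.comp (QuotientAddGroup.mk' _)) x
    have h4 : (x : A ⧸ AddSubgroup.zmultiples x) = 0 :=
      (QuotientAddGroup.eq_zero_iff _).2 (AddSubgroup.mem_zmultiples x)
    simp only [AddMonoidHom.comp_apply, QuotientAddGroup.mk'_apply, ← hy, hF, h4, map_zero,
      ZeroMemClass.coe_zero, ZeroMemClass.coe_eq_zero] at h3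
    exact hw0 h3
  have hz2 : ∀ x, ∃ j : ℤ, j • x = n x ∧ (j * j) • x = 0 := fun x => by
    obtain ⟨j, hj⟩ := hz x
    have hj' : j • x = n x := hj
    exact ⟨j, hj', by rw [mul_smul, hj', ← map_zsmul, hj', h2]⟩
  have hD0 : ∀ x ∈ D, n x = 0 := by
    intro x hx
    by_cases hfin : IsOfFinAddOrder x
    · have hpos := hfin.addOrderOf_pos
      obtain ⟨x', -, hx'⟩ := hD _ hpos.ne' x hx
      obtain ⟨j, hj, hjj⟩ := hz2 x'
      have h3 := addOrderOf_nsmul' x' hpos.ne'
      rw [hx'] at h3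
      have h4 : addOrderOf x * (addOrderOf x').gcd (addOrderOf x) = addOrderOf x' := by
        conv_lhs => rw [h3]
        rw [← h3]
        conv_lhs => enter [1]; rw [h3]
        exact Nat.div_mul_cancel (Nat.gcd_dvd_left _ _)
      rw [Nat.gcd_eq_right ⟨_, h4.symm⟩] at h4
      have h5 := addOrderOf_dvd_iff_zsmul_eq_zero.2 hjj
      rw [← h4, Nat.cast_mul, ← pow_two, ← pow_two, Int.pow_dvd_pow_iff two_ne_zero] at h5
      rw [← hx', map_nsmul, ← hj, smul_comm, hx']
      exact addOrderOf_dvd_iff_zsmul_eq_zero.1 h5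
    · obtain ⟨j, hj, hjj⟩ := hz2 x
      by_cases hj0 : j = 0
      · rw [← hj, hj0, zero_smul]
      · exact absurd (isOfFinAddOrder_iff_zsmul_eq_zero.2 ⟨_, mul_ne_zero hj0 hj0, hjj⟩) hfin
  obtain ⟨F, hF⟩ := (Module.Baer.of_divisible D).extension_property_addMonoidHom
    D.subtype Subtype.val_injective (AddMonoidHom.id D)
  ext a
  have h3 : F (n a) = ⟨n a, hnD a⟩ := DFunLike.congr_fun hF ⟨n a, hnD a⟩
  have h4 := hc F a
  rw [h3, hD0 _ (F a).2] at h4
  exact h4

/-- The first Ulm subgroup. -/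
def Ulm (A : Type*) [AddCommGroup A] : AddSubgroup A where
  carrier := {x | ∀ m : ℕ, m ≠ 0 → ∃ y, m • y = x}
  zero_mem' := fun m _ => ⟨0, smul_zero m⟩
  add_mem' := fun hx hy m hm => by
    obtain ⟨u, hu⟩ := hx m hm
    obtain ⟨v, hv⟩ := hy m hm
    exact ⟨u + v, by rw [smul_add, hu, hv]⟩
  neg_mem' := fun hx m hm => by
    obtain ⟨u, hu⟩ := hx m hm
    exact ⟨-u, by rw [smul_neg, hu]⟩

theorem pow_div {p : ℕ} (hA : ∀ a : A, ∃ b, p • b = a) (k : ℕ) (a : A) : ∃ b, p ^ k • b = a := by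
  induction k with
  | zero => exact ⟨a, by simp⟩
  | succ k ih =>
    obtain ⟨b, hb⟩ := ih
    obtain ⟨c, hc⟩ := hA b
    exact ⟨c, by rw [pow_succ, mul_smul, hc, hb]⟩

theorem ulm_div (h : RightDistributive (AddMonoid.End A)) (m : ℕ) (hm : m ≠ 0) :
    ∀ x ∈ Ulm A, ∃ y ∈ Ulm A, m • y = x := by
  induction m using induction_on_primes with
  | zero => exact absurd rfl hm
  | one => exact fun x hx => ⟨x, hx, one_smul _ _⟩
  | prime_mul p m hp ih =>
    suffices H : ∀ x ∈ Ulm A, ∃ y ∈ Ulm A, p • y = x by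
      intro x hx
      obtain ⟨y, hy, rfl⟩ := H x hx
      obtain ⟨z, hz, rfl⟩ := ih (right_ne_zero_of_mul hm) y hy
      exact ⟨z, hz, mul_smul _ _ _⟩
    intro x hx
    by_cases hA : ∀ a : A, ∃ b, p • b = a
    · obtain ⟨y, hy⟩ := hA x
      refine ⟨y, fun N hN => ?_, hy⟩
      obtain ⟨j, N', hN', rfl⟩ := Nat.exists_eq_pow_mul_and_not_dvd hN p hp.ne_one
      obtain ⟨w, hw⟩ := hx N' (right_ne_zero_of_mul hN)
      obtain ⟨u, v, huv⟩ := Nat.isCoprime_iff_coprime.2 ((Nat.Prime.coprime_iff_not_dvd hp).2 hN')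
      obtain ⟨w', hw'⟩ := pow_div hA j (u • w + v • y)
      refine ⟨w', ?_⟩
      rw [mul_comm, mul_smul, hw', smul_add, smul_comm, hw, ← hy, smul_comm N', ← natCast_zsmul,
        ← natCast_zsmul, smul_smul, smul_smul, ← add_smul, huv, one_smul]
    · have hfin : {t : A | p • t = 0}.Finite := by
        by_cases h0 : ∃ t : A, p • t = 0 ∧ t ≠ 0
        · obtain ⟨t, ht, ht0⟩ := h0
          exact (finite_zmultiples.2 (isOfFinAddOrder_iff_nsmul_eq_zero.2 ⟨p, hp.pos, ht⟩)).subset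
            fun t' ht' => socle h hp hA ht ht0 ht'
        · push Not at h0
          exact (Set.finite_singleton 0).subset h0
      choose w hw using fun N : ℕ => hx (p * N.factorial) (mul_ne_zero hp.ne_zero N.factorial_ne_zero)
      haveI := hfin.to_subtype
      let f : ℕ → {t : A | p • t = 0} := fun N => ⟨N.factorial • w N - (0 : ℕ).factorial • w 0, by
        show p • _ = 0
        rw [smul_sub, smul_smul, smul_smul, hw, hw, sub_self]⟩
      obtain ⟨y, hy⟩ := Finite.exists_infinite_fiber f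
      have hy' : (f ⁻¹' {y}).Infinite := Set.infinite_coe_iff.1 hy
      refine ⟨y + (0 : ℕ).factorial • w 0, fun N hN => ?_, ?_⟩
      · obtain ⟨M, hM, hlt⟩ := hy'.exists_gt N
        obtain ⟨q, hq⟩ := Nat.dvd_factorial (Nat.pos_of_ne_zero hN) hlt.le
        refine ⟨q • w M, ?_⟩
        rw [smul_smul, ← hq, ← Set.mem_singleton_iff.1 hM]
        exact (sub_add_cancel _ _).symm
      · rw [smul_add, y.2, zero_add, smul_smul, hw]

theorem main (h : RightDistributive (AddMonoid.End A)) (hce : CentrallyEssential (AddMonoid.End A))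
    (a b : AddMonoid.End A) : a * b = b * a := by
  by_contra hne
  obtain ⟨z, hz, hn, hn0, hnn⟩ := nil_central hce (sub_ne_zero.2 hne)
  set n := (a * b - b * a) * z with hndef
  have tors : ∀ m : ℕ, m ≠ 0 → ∀ g : AddMonoid.End A, m • g = 0 → n * g = 0 := by
    intro m
    induction m using Nat.recOnPosPrimePosCoprime with
    | zero => intro hm; exact absurd rfl hm
    | one => intro _ g hg; rw [one_smul] at hg; rw [hg, mul_zero]
    | prime_pow p k hp _ =>
      intro _ g hg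
      have hg' : ∀ x, p ^ k • g x = 0 := fun x => DFunLike.congr_fun hg x
      ext x
      by_cases hA : ∀ a : A, ∃ b, p • b = a
      · obtain ⟨y, rfl⟩ := pow_div hA k x
        show n (g (p ^ k • y)) = 0
        rw [map_nsmul g, hg', map_zero]
      · exact comm_kill (fun t t' h1 h2 h3 => socle h hp hA h1 h2 h3) a b k (z (g x))
          (by rw [← map_nsmul, hg', map_zero])
    | coprime u v hu hv huv ihu ihv =>
      intro _ g hg
      obtain ⟨i, j, hij⟩ := Nat.isCoprime_iff_coprime.2 huv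
      have h1 := ihu (by omega) (v • g) (by rwa [smul_smul])
      have h2 := ihv (by omega) (u • g) (by rwa [smul_smul, mul_comm])
      rw [← one_smul ℤ g, ← hij, add_smul, mul_smul, mul_smul, natCast_zsmul, natCast_zsmul,
        mul_add, mul_smul_comm i, mul_smul_comm j, h1, h2, zsmul_zero, zsmul_zero, add_zero]
  refine hn0 (endgame (Ulm A) (ulm_div h) n hn hnn fun x m hm => ?_)
  obtain ⟨r, s, s', h1, h2⟩ := distr h n m
  have h3 : (m * m) • (r * r) = 0 := by
    rw [← smul_mul_smul_comm, nsmul_eq_mul, h1, mul_assoc, ← mul_assoc s,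
      Subring.mem_center_iff.1 hn s, ← mul_assoc, ← mul_assoc, hnn, zero_mul, zero_mul]
  have h4 := tors _ (mul_ne_zero hm hm) _ h3
  have h5 : n = m • (s' * (1 + r)) := by
    rw [nsmul_eq_mul, ← mul_assoc, ← h2, mul_assoc n, sub_mul, one_mul, mul_add r, mul_one, mul_sub,
      mul_add, mul_add, h4, mul_one, add_zero, add_sub_cancel_right]
  exact ⟨(s' * (1 + r)) x, (DFunLike.congr_fun h5 x).symm⟩

theorem result :
    (∀ (A : Type) [AddCommGroup A], RightDistributive (AddMonoid.End A) →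
      CentrallyEssential (AddMonoid.End A) → ∀ a b : AddMonoid.End A, a * b = b * a) ∧
    (∀ (A : Type) [AddCommGroup A], RightUniserial (AddMonoid.End A) →
      CentrallyEssential (AddMonoid.End A) → ∀ a b : AddMonoid.End A, a * b = b * a) := by
  refine ⟨fun A _ h => main h, fun A _ h => main fun I J K => ?_⟩
  rcases h J K with h1 | h1
  · rw [sup_eq_right.2 h1, sup_eq_right.2 (inf_le_inf_left I h1)]
  · rw [sup_eq_left.2 h1, sup_eq_left.2 (inf_le_inf_left I h1)]

end Pool.Agent.Results.MP_10193a_al.Comm
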